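import Pool.Agent.T9h85.TG.Laurent
import Pool.Agent.T9h56.TG.Count
import Pool.Agent.H261R2.CM.Defs

/-! # The frozen statement from the statement for polynomials -/

set_option autoImplicit false
open Classical

namespace Pool.Agent.T9h85.TG

open Finset Filter Pool.Agent.T9h56.TG

theorem assemble (hfinal : ∀ (N : ℕ) (f : MvPolynomial (Fin N) ℤ), f ≠ 0 →
      Tendsto (fun n : ℕ => (∑ k : Fin N → Fin n, Real.log ‖vl f k‖) / (n:ℝ) ^ N) atTop
        (nhds (∫ t in Set.Icc (0 : Fin N → ℝ) 1, Real.log ‖Pool.Agent.H261R2.CM.tv f t‖))) :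
    ∀ N : ℕ, 1 ≤ N → ∀ f : (Fin N →₀ ℤ) →₀ ℤ, f ≠ 0 →
      Filter.Tendsto
        (fun n : ℕ =>
          Real.log ‖∏ k ∈ Finset.univ.filter (fun k : Fin N → Fin (n + 1) =>
              f.sum (fun e c => (c : ℂ) * ∏ i, Complex.exp
                (2 * (Real.pi : ℂ) * Complex.I * ((k i : ℕ) : ℂ) / ((n : ℂ) + 1)) ^ (e i)) ≠ 0),
            f.sum (fun e c => (c : ℂ) * ∏ i, Complex.exp
                (2 * (Real.pi : ℂ) * Complex.I * ((k i : ℕ) : ℂ) / ((n : ℂ) + 1)) ^ (e i))‖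
          / ((n : ℝ) + 1) ^ N)
        Filter.atTop
        (nhds (∫ t in Set.Icc (0 : Fin N → ℝ) 1,
          Real.log ‖f.sum (fun e c => (c : ℂ) * ∏ i, Complex.exp
            (2 * (Real.pi : ℂ) * Complex.I * (t i : ℂ)) ^ (e i))‖)) := by
  intro N _ f hf
  obtain ⟨F, hF, hFz⟩ := laurent N f hf
  have h := (hfinal N F hF).comp (tendsto_add_atTop_nat 1)
  have hint : (∫ t in Set.Icc (0 : Fin N → ℝ) 1,
          Real.log ‖f.sum (fun e c => (c : ℂ) * ∏ i, Complex.exp
            (2 * (Real.pi : ℂ) * Complex.I * (t i : ℂ)) ^ (e i))‖) =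
      ∫ t in Set.Icc (0 : Fin N → ℝ) 1, Real.log ‖Pool.Agent.H261R2.CM.tv F t‖ := by
    congr 1
    ext t
    have h1 := hFz (fun i => Complex.exp (2 * (Real.pi : ℂ) * Complex.I * (t i : ℂ))) (fun i => by
      rw [Complex.norm_exp]
      have : (2 * (Real.pi : ℂ) * Complex.I * (t i : ℂ)).re = 0 := by simp
      rw [this, Real.exp_zero])
    rw [h1]
    congr 2
    unfold Pool.Agent.H261R2.CM.tv
    rw [MvPolynomial.eval_map]
    rfl
  rw [hint]
  refine h.congr fun n => ?_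
  have hval : ∀ k : Fin N → Fin (n + 1), ‖f.sum (fun e c => (c : ℂ) * ∏ i, Complex.exp
      (2 * (Real.pi : ℂ) * Complex.I * ((k i : ℕ) : ℂ) / ((n : ℂ) + 1)) ^ (e i))‖ = ‖vl F k‖ := by
    intro k
    have h1 := hFz (fun i => Complex.exp
      (2 * (Real.pi : ℂ) * Complex.I * ((k i : ℕ) : ℂ) / ((n : ℂ) + 1))) (fun i => by
      have h2 : 2 * (Real.pi : ℂ) * Complex.I * ((k i : ℕ) : ℂ) / ((n : ℂ) + 1) =
          ((2 * Real.pi * ((k i : ℕ) : ℝ) / ((n : ℝ) + 1) : ℝ) : ℂ) * Complex.I := by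
        push_cast
        ring
      rw [h2, Complex.norm_exp_ofReal_mul_I])
    rw [h1]
    congr 1
    change _ = MvPolynomial.eval₂Hom (Int.castRingHom ℂ) (fun i => rt (n + 1) (k i)) F
    congr 2
    ext i
    unfold rt
    congr 1
    push_cast
    ring
  have hne : ∀ k : Fin N → Fin (n + 1), (f.sum (fun e c => (c : ℂ) * ∏ i, Complex.exp
      (2 * (Real.pi : ℂ) * Complex.I * ((k i : ℕ) : ℂ) / ((n : ℂ) + 1)) ^ (e i)) ≠ 0) ↔
        vl F k ≠ 0 := by
    intro k
    rw [← norm_ne_zero_iff, hval k, norm_ne_zero_iff]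
  simp only [Function.comp_apply]
  rw [norm_prod, Real.log_prod]
  · push_cast
    congr 1
    rw [Finset.sum_filter]
    refine Finset.sum_congr rfl fun k _ => ?_
    rw [hval k]
    split_ifs with h0
    · rfl
    · have h1 : vl F k = 0 := by
        by_contra h2
        exact h0 ((hne k).2 h2)
      rw [h1, norm_zero, Real.log_zero]
  · intro k hk
    exact norm_ne_zero_iff.2 (Finset.mem_filter.1 hk).2

end Pool.Agent.T9h85.TG
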