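import Mathlib

/-! # From Laurent polynomials to polynomials (for the unit torus) -/

set_option autoImplicit false

namespace Pool.Agent.T9h85.TG

open Finset

/-- On the unit torus every nonzero integral Laurent polynomial has the absolute value of a nonzero
polynomial. -/
theorem laurent (N : ℕ) (f : (Fin N →₀ ℤ) →₀ ℤ) (hf : f ≠ 0) :
    ∃ F : MvPolynomial (Fin N) ℤ, F ≠ 0 ∧ ∀ z : Fin N → ℂ, (∀ i, ‖z i‖ = 1) →
      ‖f.sum (fun e c => (c : ℂ) * ∏ i, z i ^ (e i))‖ =
        ‖MvPolynomial.eval₂Hom (Int.castRingHom ℂ) z F‖ := by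
  classical
  -- a common shift
  obtain ⟨K, hK⟩ : ∃ K : ℕ, ∀ e ∈ f.support, ∀ i, 0 ≤ e i + (K : ℤ) := by
    refine ⟨∑ e ∈ f.support, ∑ i, (e i).natAbs, fun e he i => ?_⟩
    have h1 : (e i).natAbs ≤ ∑ i, (e i).natAbs :=
      Finset.single_le_sum (f := fun i => (e i).natAbs) (fun _ _ => Nat.zero_le _)
        (Finset.mem_univ i)
    have h2 : ∑ i, (e i).natAbs ≤ ∑ e ∈ f.support, ∑ i, (e i).natAbs :=
      Finset.single_le_sum (f := fun e : Fin N →₀ ℤ => ∑ i, (e i).natAbs)
        (fun _ _ => Nat.zero_le _) he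
    omega
  let σ : (Fin N →₀ ℤ) → (Fin N →₀ ℕ) := fun e =>
    Finsupp.equivFunOnFinite.symm (fun i => (e i + (K : ℤ)).toNat)
  have hσ : ∀ e i, σ e i = (e i + (K : ℤ)).toNat := fun e i => rfl
  have hinj : ∀ e ∈ f.support, ∀ e' ∈ f.support, σ e = σ e' → e = e' := by
    intro e he e' he' h
    ext i
    have h1 : σ e i = σ e' i := by rw [h]
    rw [hσ, hσ] at h1
    have := hK e he i
    have := hK e' he' i
    omega
  obtain ⟨e0, he0⟩ := Finsupp.support_nonempty_iff.2 hf
  refine ⟨∑ e ∈ f.support, MvPolynomial.monomial (σ e) (f e), ?_, fun z hz => ?_⟩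
  · intro h0
    have h1 : MvPolynomial.coeff (σ e0) (∑ e ∈ f.support, MvPolynomial.monomial (σ e) (f e)) =
        f e0 := by
      rw [MvPolynomial.coeff_sum, Finset.sum_eq_single e0]
      · simp
      · intro e he hne
        rw [MvPolynomial.coeff_monomial, if_neg]
        exact fun h => hne (hinj e he e0 he0 h)
      · intro h
        exact absurd he0 h
    rw [h0, MvPolynomial.coeff_zero] at h1
    exact (Finsupp.mem_support_iff.1 he0) h1.symm
  · have hz0 : ∀ i, z i ≠ 0 := fun i h => by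
      have := hz i
      rw [h, norm_zero] at this
      exact zero_ne_one this
    have h1 : MvPolynomial.eval₂Hom (Int.castRingHom ℂ) z
        (∑ e ∈ f.support, MvPolynomial.monomial (σ e) (f e)) =
        (∏ i, z i ^ K) * f.sum (fun e c => (c : ℂ) * ∏ i, z i ^ (e i)) := by
      rw [map_sum, Finsupp.sum, Finset.mul_sum]
      refine Finset.sum_congr rfl fun e he => ?_
      rw [MvPolynomial.coe_eval₂Hom, MvPolynomial.eval₂_monomial]
      rw [Finsupp.prod_fintype _ _ (fun i => pow_zero _)]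
      have h2 : ∏ i, z i ^ (σ e i) = (∏ i, z i ^ K) * ∏ i, z i ^ (e i) := by
        rw [← Finset.prod_mul_distrib]
        refine Finset.prod_congr rfl fun i _ => ?_
        rw [hσ, ← zpow_natCast, Int.toNat_of_nonneg (hK e he i), zpow_add₀ (hz0 i),
          zpow_natCast, mul_comm]
      rw [h2]
      simp only [eq_intCast]
      ring
    rw [h1, norm_mul]
    have h3 : ‖∏ i, z i ^ K‖ = 1 := by
      rw [norm_prod]
      exact Finset.prod_eq_one fun i _ => by rw [norm_pow, hz i, one_pow]
    rw [h3, one_mul]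

end Pool.Agent.T9h85.TG
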